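import Mathlib

/-!
# MP_b99fbe_co: convex tiles used as translates and point reflections

If convex bodies `T i`, each a translate of `P` or of `-P`, have disjoint interiors, then every one
of them meets at most `2 * 3 ^ d - 1` others; if they cover the space then `P` has at most
`2 * 3 ^ d - 1` facets.  Both numbers `N` also satisfy `(N + 1) vol P ≤ 3 ^ d vol ((P - P) / 2)`.
-/

set_option autoImplicit false

open MeasureTheory Set
open scoped ENNReal Pointwise

namespace Pool.Agent.Results.MP_b99fbe_co.PointReflections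

/-- one-dimensional Brunn-Minkowski, compact sets -/
theorem bm_compact {A B D : Set ℝ} (hA : IsCompact A) (hB : IsCompact B) (hAn : A.Nonempty)
    (hBn : B.Nonempty) (h : ∀ a ∈ A, ∀ b ∈ B, a + b ∈ D) :
    volume A + volume B ≤ volume D := by
  obtain ⟨α, hαA, hα⟩ := hA.exists_isGreatest hAn
  obtain ⟨β, hβB, hβ⟩ := hB.exists_isLeast hBn
  have e1 : volume ((fun x : ℝ => x + β) '' A) = volume A := by
    rw [image_add_right, measure_preimage_add_right]
  have e2 : volume ((fun x : ℝ => α + x) '' B) = volume B := by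
    rw [image_add_left, measure_preimage_add]
  have m2 : MeasurableSet ((fun x : ℝ => α + x) '' B) :=
    (hB.image (by fun_prop)).measurableSet
  have hi : volume (((fun x : ℝ => x + β) '' A) ∩ ((fun x : ℝ => α + x) '' B)) = 0 := by
    refine measure_mono_null (t := {α + β}) ?_ (by simp)
    rintro x ⟨⟨a, ha, rfl⟩, ⟨b, hb, hab⟩⟩
    have h1 := hα ha
    have h2 := hβ hb
    simp only at hab
    simp only [mem_singleton_iff]
    linarith
  have := measure_union_add_inter (μ := volume) ((fun x : ℝ => x + β) '' A) m2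
  rw [hi, add_zero, e1, e2] at this
  rw [← this]
  refine measure_mono ?_
  rintro x (⟨a, ha, rfl⟩ | ⟨b, hb, rfl⟩)
  · exact h a ha β hβB
  · exact h α hαA b hb

theorem add_le_of_lt {a b c : ℝ≥0∞} (h : ∀ r < a, ∀ s < b, r + s ≤ c) (ha : a ≠ 0) (hb : b ≠ 0) :
    a + b ≤ c := by
  have h1 : ∀ s < b, a + s ≤ c := by
    intro s hs
    by_cases hst : s = ∞
    · exact absurd hs (by simp [hst])
    by_cases hc : c = ∞
    · simp [hc]
    have hsc : s ≤ c := le_trans (by simp) (h 0 (pos_iff_ne_zero.2 ha) s hs)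
    have : a ≤ c - s := by
      refine le_of_forall_lt fun r hr => ?_
      obtain ⟨r', hr1, hr2⟩ := exists_between hr
      have := h r' hr2 s hs
      exact lt_of_lt_of_le hr1 (ENNReal.le_sub_of_add_le_right hst this)
    calc a + s ≤ (c - s) + s := by gcongr
      _ = c := tsub_add_cancel_of_le hsc
  by_cases hc : c = ∞
  · simp [hc]
  have hac : a ≤ c := le_trans (by simp) (h1 0 (pos_iff_ne_zero.2 hb))
  have hat : a ≠ ∞ := fun h => hc (top_le_iff.1 (h ▸ hac))
  have : b ≤ c - a := by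
    refine le_of_forall_lt fun r hr => ?_
    obtain ⟨r', hr1, hr2⟩ := exists_between hr
    have := h1 r' hr2
    exact lt_of_lt_of_le hr1 (ENNReal.le_sub_of_add_le_left hat this)
  calc a + b ≤ a + (c - a) := by gcongr
    _ = c := add_tsub_cancel_of_le hac

/-- one-dimensional Brunn-Minkowski, measurable sets -/
theorem bm_one {A B C : Set ℝ} (hA : MeasurableSet A) (hB : MeasurableSet B) (hAn : A.Nonempty)
    (hBn : B.Nonempty) (h : ∀ a ∈ A, ∀ b ∈ B, (a + b) / 2 ∈ C) :
    volume A + volume B ≤ 2 * volume C := by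
  have e : volume ((2 : ℝ) • C) = 2 * volume C := by
    rw [Measure.addHaar_smul]
    simp
  rw [← e]
  have h' : ∀ a ∈ A, ∀ b ∈ B, a + b ∈ (2 : ℝ) • C := fun a ha b hb =>
    ⟨(a + b) / 2, h a ha b hb, by simp only [smul_eq_mul]; ring⟩
  obtain ⟨a0, ha0⟩ := hAn
  obtain ⟨b0, hb0⟩ := hBn
  have key : ∀ K ⊆ A, IsCompact K → ∀ L ⊆ B, IsCompact L → volume K + volume L ≤ volume ((2 : ℝ) • C) := by
    intro K hK hKc L hL hLc
    have := bm_compact (A := insert a0 K) (B := insert b0 L) (D := (2 : ℝ) • C) (hKc.insert a0)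
      (hLc.insert b0) (insert_nonempty _ _) (insert_nonempty _ _) (by
        intro a ha b hb
        refine h' a ?_ b ?_
        · rcases ha with rfl | ha
          · exact ha0
          · exact hK ha
        · rcases hb with rfl | hb
          · exact hb0
          · exact hL hb)
    refine le_trans (add_le_add (measure_mono (subset_insert _ _)) (measure_mono (subset_insert _ _))) this
  by_cases hA0 : volume A = 0
  · rw [hA0, zero_add]
    refine le_of_forall_lt fun s hs => ?_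
    obtain ⟨L, hL, hLc, hs2⟩ := hB.exists_lt_isCompact hs
    have := key {a0} (by simpa using ha0) isCompact_singleton L hL hLc
    exact lt_of_lt_of_le hs2 (le_trans (by simp) this)
  by_cases hB0 : volume B = 0
  · rw [hB0, add_zero]
    refine le_of_forall_lt fun s hs => ?_
    obtain ⟨L, hL, hLc, hs2⟩ := hA.exists_lt_isCompact hs
    have := key L hL hLc {b0} (by simpa using hb0) isCompact_singleton
    exact lt_of_lt_of_le hs2 (le_trans (by simp) this)
  refine add_le_of_lt ?_ hA0 hB0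
  intro r hr s hs
  obtain ⟨K, hK, hKc, hr2⟩ := hA.exists_lt_isCompact hr
  obtain ⟨L, hL, hLc, hs2⟩ := hB.exists_lt_isCompact hs
  exact le_trans (add_le_add hr2.le hs2.le) (key K hK hKc L hL hLc)

/-- one-dimensional Prekopa-Leindler for functions with supremum one -/
theorem pl_one_norm {φ ψ η : ℝ → ℝ} (hφ : Measurable φ) (hψ : Measurable ψ) (hη : Measurable η)
    (φ0 : ∀ x, 0 ≤ φ x) (ψ0 : ∀ x, 0 ≤ ψ x) (η0 : ∀ x, 0 ≤ η x) (φ1 : ∀ x, φ x ≤ 1)
    (ψ1 : ∀ x, ψ x ≤ 1) (φs : ∀ t < 1, ∃ x, t < φ x) (ψs : ∀ t < 1, ∃ x, t < ψ x)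
    (h : ∀ x y, φ x * ψ y ≤ η ((x + y) / 2) ^ 2) :
    (∫⁻ x, ENNReal.ofReal (φ x)) + (∫⁻ x, ENNReal.ofReal (ψ x)) ≤
      2 * ∫⁻ x, ENNReal.ofReal (η x) := by
  rw [lintegral_eq_lintegral_meas_lt volume (Filter.Eventually.of_forall φ0) hφ.aemeasurable,
    lintegral_eq_lintegral_meas_lt volume (Filter.Eventually.of_forall ψ0) hψ.aemeasurable,
    lintegral_eq_lintegral_meas_lt volume (Filter.Eventually.of_forall η0) hη.aemeasurable]
  have anti : ∀ f : ℝ → ℝ, Antitone fun t : ℝ => volume {a | t < f a} := fun f s t hst =>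
    measure_mono fun x hx => lt_of_le_of_lt hst hx
  rw [← lintegral_add_left (anti φ).measurable, ← lintegral_const_mul _ (anti η).measurable]
  refine setLIntegral_mono' measurableSet_Ioi ?_
  intro t ht
  have ht0 : 0 < t := ht
  by_cases ht1 : t < 1
  · refine bm_one (measurableSet_lt measurable_const hφ) (measurableSet_lt measurable_const hψ)
      (φs t ht1) (ψs t ht1) ?_
    intro a ha b hb
    have ha' : t < φ a := ha
    have hb' : t < ψ b := hb
    have h1 := h a b
    have h2 : t * t < φ a * ψ b := by nlinarith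
    have : t ^ 2 < η ((a + b) / 2) ^ 2 := by nlinarith
    exact lt_of_pow_lt_pow_left₀ 2 (η0 _) this
  · have e1 : {a | t < φ a} = ∅ := by
      ext x
      simp only [mem_ofPred_eq, mem_empty_iff_false, iff_false, not_lt]
      exact le_trans (φ1 x) (not_lt.1 ht1)
    have e2 : {a | t < ψ a} = ∅ := by
      ext x
      simp only [mem_ofPred_eq, mem_empty_iff_false, iff_false, not_lt]
      exact le_trans (ψ1 x) (not_lt.1 ht1)
    rw [e1, e2]
    simp

theorem amgm (a b : ℝ≥0∞) : 4 * (a * b) ≤ (a + b) ^ 2 := by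
  by_cases ha : a = ∞
  · by_cases hb : b = 0
    · simp [hb]
    · simp [ha]
  by_cases hb : b = ∞
  · by_cases ha : a = 0
    · simp [ha]
    · simp [hb]
  lift a to NNReal using ha
  lift b to NNReal using hb
  norm_cast
  rw [← NNReal.coe_le_coe]
  push_cast
  nlinarith [sq_nonneg ((a : ℝ) - b)]

/-- one-dimensional Prekopa-Leindler, bounded functions -/
theorem pl_one_bdd {F G H : ℝ → ℝ≥0∞} (hF : Measurable F) (hG : Measurable G) (hH : Measurable H)
    {N : ℝ≥0∞} (hN : N ≠ ∞) (FN : ∀ x, F x ≤ N) (GN : ∀ x, G x ≤ N)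
    (h : ∀ x y, F x * G y ≤ H ((x + y) / 2) ^ 2) :
    (∫⁻ x, F x) * (∫⁻ x, G x) ≤ (∫⁻ x, H x) ^ 2 := by
  set a := ⨆ x, F x with ha
  set b := ⨆ x, G x with hb
  have haN : a ≤ N := iSup_le FN
  have hbN : b ≤ N := iSup_le GN
  have hat : a ≠ ∞ := ne_top_of_le_ne_top hN haN
  have hbt : b ≠ ∞ := ne_top_of_le_ne_top hN hbN
  by_cases ha0 : a = 0
  · have : ∀ x, F x = 0 := fun x => le_antisymm (ha0 ▸ le_iSup F x) bot_le
    simp [this]
  by_cases hb0 : b = 0
  · have : ∀ x, G x = 0 := fun x => le_antisymm (hb0 ▸ le_iSup G x) bot_le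
    simp [this]
  -- the normalising constant
  set c : ℝ≥0∞ := (a * b) ^ (1 / 2 : ℝ) with hc
  have hab0 : a * b ≠ 0 := mul_ne_zero ha0 hb0
  have habt : a * b ≠ ∞ := ENNReal.mul_ne_top hat hbt
  have hc2 : c ^ 2 = a * b := by
    rw [hc, ← ENNReal.rpow_natCast, ← ENNReal.rpow_mul]
    norm_num
  have hc0 : c ≠ 0 := by
    intro h0
    exact hab0 (by rw [← hc2, h0]; simp)
  have hct : c ≠ ∞ := by
    intro h0
    exact habt (by rw [← hc2, h0]; simp)
  set φ : ℝ → ℝ := fun x => (F x / a).toReal with hφ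
  set ψ : ℝ → ℝ := fun x => (G x / b).toReal with hψ
  set η : ℝ → ℝ := fun x => (min (H x / c) 1).toReal with hη
  have Fa : ∀ x, F x / a ≤ 1 := fun x => ENNReal.div_le_of_le_mul (by rw [one_mul]; exact le_iSup F x)
  have Gb : ∀ x, G x / b ≤ 1 := fun x => ENNReal.div_le_of_le_mul (by rw [one_mul]; exact le_iSup G x)
  have Fat : ∀ x, F x / a ≠ ∞ := fun x => ne_top_of_le_ne_top ENNReal.one_ne_top (Fa x)
  have Gbt : ∀ x, G x / b ≠ ∞ := fun x => ne_top_of_le_ne_top ENNReal.one_ne_top (Gb x)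
  have Hct : ∀ x, min (H x / c) 1 ≠ ∞ := fun x => ne_top_of_le_ne_top ENNReal.one_ne_top (min_le_right _ _)
  have oφ : ∀ x, ENNReal.ofReal (φ x) = F x / a := fun x => ENNReal.ofReal_toReal (Fat x)
  have oψ : ∀ x, ENNReal.ofReal (ψ x) = G x / b := fun x => ENNReal.ofReal_toReal (Gbt x)
  have oη : ∀ x, ENNReal.ofReal (η x) = min (H x / c) 1 := fun x => ENNReal.ofReal_toReal (Hct x)
  have key := pl_one_norm (φ := φ) (ψ := ψ) (η := η) (hF.div_const a).ennreal_toReal
    (hG.div_const b).ennreal_toReal ((hH.div_const c).min measurable_const).ennreal_toReal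
    (fun _ => ENNReal.toReal_nonneg) (fun _ => ENNReal.toReal_nonneg) (fun _ => ENNReal.toReal_nonneg)
    (fun x => ENNReal.toReal_le_of_le_ofReal zero_le_one (by simpa using Fa x))
    (fun x => ENNReal.toReal_le_of_le_ofReal zero_le_one (by simpa using Gb x))
    (by
      intro t ht
      by_cases ht0 : t < 0
      · exact ⟨0, lt_of_lt_of_le ht0 ENNReal.toReal_nonneg⟩
      have : ENNReal.ofReal t * a < a := by
        calc ENNReal.ofReal t * a < 1 * a := by
              refine ENNReal.mul_lt_mul_left ha0 hat ?_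
              simpa using ht
          _ = a := one_mul a
      obtain ⟨x, hx⟩ := lt_iSup_iff.1 this
      refine ⟨x, ?_⟩
      rw [hφ]
      refine (ENNReal.ofReal_lt_iff_lt_toReal (not_lt.1 ht0) (Fat x)).1 ?_
      rw [ENNReal.lt_div_iff_mul_lt (Or.inl ha0) (Or.inl hat)]
      exact hx)
    (by
      intro t ht
      by_cases ht0 : t < 0
      · exact ⟨0, lt_of_lt_of_le ht0 ENNReal.toReal_nonneg⟩
      have : ENNReal.ofReal t * b < b := by
        calc ENNReal.ofReal t * b < 1 * b := by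
              refine ENNReal.mul_lt_mul_left hb0 hbt ?_
              simpa using ht
          _ = b := one_mul b
      obtain ⟨x, hx⟩ := lt_iSup_iff.1 this
      refine ⟨x, ?_⟩
      rw [hψ]
      refine (ENNReal.ofReal_lt_iff_lt_toReal (not_lt.1 ht0) (Gbt x)).1 ?_
      rw [ENNReal.lt_div_iff_mul_lt (Or.inl hb0) (Or.inl hbt)]
      exact hx)
    (by
      intro x y
      have h1 : F x / a * (G y / b) ≤ (min (H ((x + y) / 2) / c) 1) ^ 2 := by
        rcases le_total (H ((x + y) / 2) / c) 1 with hle | hle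
        · rw [min_eq_left hle, ENNReal.div_eq_inv_mul, ENNReal.div_eq_inv_mul, ENNReal.div_eq_inv_mul,
            mul_pow]
          calc a⁻¹ * F x * (b⁻¹ * G y) = (a⁻¹ * b⁻¹) * (F x * G y) := by ring
            _ ≤ (a⁻¹ * b⁻¹) * H ((x + y) / 2) ^ 2 := by gcongr; exact h x y
            _ = c⁻¹ ^ 2 * H ((x + y) / 2) ^ 2 := by
                rw [← ENNReal.mul_inv (Or.inl ha0) (Or.inl hat), ← hc2, ENNReal.inv_pow]
        · rw [min_eq_right hle]
          calc F x / a * (G y / b) ≤ 1 * 1 := mul_le_mul' (Fa x) (Gb y)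
            _ = 1 ^ 2 := by norm_num
      have h2 := ENNReal.toReal_mono (ENNReal.pow_ne_top (Hct _)) h1
      rw [ENNReal.toReal_mul, ENNReal.toReal_pow] at h2
      exact h2)
  simp_rw [oφ, oψ, oη] at key
  have e1 : ∫⁻ x, F x / a = (∫⁻ x, F x) / a := by
    simp_rw [ENNReal.div_eq_inv_mul]
    rw [lintegral_const_mul _ hF]
  have e2 : ∫⁻ x, G x / b = (∫⁻ x, G x) / b := by
    simp_rw [ENNReal.div_eq_inv_mul]
    rw [lintegral_const_mul _ hG]
  have e3 : ∫⁻ x, min (H x / c) 1 ≤ (∫⁻ x, H x) / c := by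
    rw [ENNReal.div_eq_inv_mul, ← lintegral_const_mul _ hH]
    refine lintegral_mono fun x => ?_
    rw [← ENNReal.div_eq_inv_mul]
    exact min_le_left _ _
  rw [e1, e2] at key
  set I := ∫⁻ x, F x
  set J := ∫⁻ x, G x
  set L := ∫⁻ x, H x
  have k1 : 4 * (I / a * (J / b)) ≤ 4 * (L / c) ^ 2 := by
    calc 4 * (I / a * (J / b)) ≤ (I / a + J / b) ^ 2 := amgm _ _
      _ ≤ (2 * (L / c)) ^ 2 := by gcongr; exact le_trans key (by gcongr)
      _ = 4 * (L / c) ^ 2 := by ring
  have k2 : I / a * (J / b) ≤ (L / c) ^ 2 :=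
    (ENNReal.mul_le_mul_iff_right (by norm_num) (by norm_num)).1 k1
  calc I * J = (I / a * (J / b)) * (a * b) := by
        calc I * J = (I / a * a) * (J / b * b) := by
              rw [ENNReal.div_mul_cancel ha0 hat, ENNReal.div_mul_cancel hb0 hbt]
          _ = _ := by ring
    _ ≤ (L / c) ^ 2 * (a * b) := by gcongr
    _ = (L / c * c) ^ 2 := by rw [← hc2]; ring
    _ = L ^ 2 := by rw [ENNReal.div_mul_cancel hc0 hct]

/-- one-dimensional Prekopa-Leindler -/
theorem pl_one {F G H : ℝ → ℝ≥0∞} (hF : Measurable F) (hG : Measurable G) (hH : Measurable H)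
    (h : ∀ x y, F x * G y ≤ H ((x + y) / 2) ^ 2) :
    (∫⁻ x, F x) * (∫⁻ x, G x) ≤ (∫⁻ x, H x) ^ 2 := by
  have lim : ∀ F : ℝ → ℝ≥0∞, Measurable F →
      ∫⁻ x, F x = ⨆ k : ℕ, ∫⁻ x, min (F x) (k : ℝ≥0∞) := by
    intro F hF
    rw [← lintegral_iSup (fun k => hF.min measurable_const)
      (fun i j hij x => min_le_min le_rfl (by exact_mod_cast hij))]
    refine lintegral_congr fun x => ?_
    refine le_antisymm ?_ (iSup_le fun k => min_le_left _ _)
    by_cases hx : F x = ∞
    · rw [hx]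
      simp only [le_top, inf_of_le_right]
      rw [ENNReal.iSup_natCast]
    · obtain ⟨k, hk⟩ := ENNReal.exists_nat_gt hx
      refine le_iSup_of_le k ?_
      rw [min_eq_left hk.le]
  rw [lim F hF, lim G hG, ENNReal.iSup_mul]
  refine iSup_le fun k => ?_
  rw [ENNReal.mul_iSup]
  refine iSup_le fun l => ?_
  refine pl_one_bdd (N := max (k : ℝ≥0∞) l) (hF.min measurable_const) (hG.min measurable_const) hH
    (by simp) (fun x => le_trans (min_le_right _ _) (le_max_left _ _))
    (fun x => le_trans (min_le_right _ _) (le_max_right _ _)) ?_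
  intro x y
  exact le_trans (mul_le_mul' (min_le_left _ _) (min_le_left _ _)) (h x y)

/-- Prekopa-Leindler, exponent one half -/
theorem pl : ∀ (n : ℕ) (F G H : (Fin n → ℝ) → ℝ≥0∞), Measurable F → Measurable G → Measurable H →
    (∀ x y, F x * G y ≤ H ((1 / 2 : ℝ) • (x + y)) ^ 2) →
    (∫⁻ x, F x) * (∫⁻ x, G x) ≤ (∫⁻ x, H x) ^ 2
  | 0, F, G, H, hF, hG, hH, h => by
      have : ∀ f : (Fin 0 → ℝ) → ℝ≥0∞, ∫⁻ x, f x = f default := by
        intro f
        have : f = fun _ => f default := by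
          ext x; rw [Subsingleton.elim x default]
        rw [this]
        simp [volume_pi]
      rw [this, this, this]
      have := h default default
      rwa [Subsingleton.elim ((1 / 2 : ℝ) • (default + default)) (default : Fin 0 → ℝ)] at this
  | n + 1, F, G, H, hF, hG, hH, h => by
      have e : ∀ f : (Fin (n + 1) → ℝ) → ℝ≥0∞, Measurable f →
          ∫⁻ x, f x = ∫⁻ t : ℝ, ∫⁻ y : Fin n → ℝ, f (Fin.cons t y) := by
        intro f hf
        have hp := (volume_preserving_piFinSuccAbove (fun _ : Fin (n + 1) => ℝ) 0).symm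
        rw [← hp.lintegral_comp hf, Measure.volume_eq_prod]
        refine (lintegral_prod (fun z : ℝ × (Fin n → ℝ) => f _) (hf.comp hp.measurable).aemeasurable).trans ?_
        refine lintegral_congr fun t => lintegral_congr fun y => congrArg f ?_
        ext i
        refine Fin.cases ?_ (fun j => ?_) i
        · simp [MeasurableEquiv.piFinSuccAbove]
        · simp [MeasurableEquiv.piFinSuccAbove]
      have mc : Measurable fun p : ℝ × (Fin n → ℝ) => (Fin.cons p.1 p.2 : Fin (n + 1) → ℝ) := by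
        refine measurable_pi_lambda _ fun i => ?_
        refine Fin.cases ?_ (fun j => ?_) i
        · simpa using measurable_fst
        · simp only [Fin.cons_succ]
          exact (measurable_pi_apply j).comp measurable_snd
      rw [e F hF, e G hG, e H hH]
      refine pl_one (hF.comp mc).lintegral_prod_right' (hG.comp mc).lintegral_prod_right'
        (hH.comp mc).lintegral_prod_right' ?_
      intro s t
      refine pl n _ _ _ (hF.comp (mc.comp measurable_prodMk_left)) (hG.comp (mc.comp measurable_prodMk_left))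
        (hH.comp (mc.comp measurable_prodMk_left)) ?_
      intro x y
      have := h (Fin.cons s x) (Fin.cons t y)
      have e2 : (1 / 2 : ℝ) • ((Fin.cons s x : Fin (n + 1) → ℝ) + Fin.cons t y) =
          Fin.cons ((s + t) / 2) ((1 / 2 : ℝ) • (x + y)) := by
        ext i
        refine Fin.cases ?_ (fun j => ?_) i
        · simp; ring
        · simp; ring
      rw [e2] at this
      exact this

/-- the volume of a set is at most that of half its difference body -/
theorem bm_diff {n : ℕ} {X Y : Set (Fin n → ℝ)} (hX : MeasurableSet X) (hY : MeasurableSet Y)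
    (h : ∀ a ∈ X, ∀ b ∈ X, (1 / 2 : ℝ) • (a - b) ∈ Y) : volume X ≤ volume Y := by
  have h1 := pl n (X.indicator 1) ((-X).indicator 1) (Y.indicator 1)
    (measurable_one.indicator hX) (measurable_one.indicator hX.neg) (measurable_one.indicator hY) (by
      intro x y
      by_cases hx : x ∈ X
      · by_cases hy : y ∈ -X
        · have := h x hx (-y) hy
          rw [sub_neg_eq_add] at this
          rw [indicator_of_mem hx, indicator_of_mem hy, indicator_of_mem this]
          simp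
        · simp [hy]
      · simp [hx])
  rw [lintegral_indicator_one hX, lintegral_indicator_one hX.neg, lintegral_indicator_one hY,
    Measure.measure_neg, ← sq] at h1
  exact (ENNReal.pow_le_pow_left_iff two_ne_zero).1 h1

/-! ### Difference body and packing -/

section geom

variable {d : ℕ}

/-- half the difference body -/
def hK (P : Set (Fin d → ℝ)) : Set (Fin d → ℝ) := (1 / 2 : ℝ) • (P - P)

theorem mem_hK {P : Set (Fin d → ℝ)} {a b : Fin d → ℝ} (ha : a ∈ P) (hb : b ∈ P) :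
    (1 / 2 : ℝ) • (a - b) ∈ hK P := smul_mem_smul_set (sub_mem_sub ha hb)

theorem hK_convex {P : Set (Fin d → ℝ)} (hc : Convex ℝ P) : Convex ℝ (hK P) := (hc.sub hc).smul _

theorem hK_compact {P : Set (Fin d → ℝ)} (hk : IsCompact P) : IsCompact (hK P) := by
  unfold hK
  rw [sub_eq_add_neg]
  exact (hk.add hk.neg).smul _

theorem hK_neg {P : Set (Fin d → ℝ)} {z : Fin d → ℝ} (hz : z ∈ hK P) : -z ∈ hK P := by
  obtain ⟨w, ⟨a, ha, b, hb, rfl⟩, rfl⟩ := hz
  have := mem_hK hb ha
  simp only at this ⊢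
  rwa [← smul_neg, neg_sub]

theorem hK_negset (P : Set (Fin d → ℝ)) : -(hK P) = hK P := by
  ext z
  rw [Set.mem_neg]
  exact ⟨fun h => by simpa using hK_neg h, fun h => hK_neg h⟩

theorem hK_int_neg {P : Set (Fin d → ℝ)} {z : Fin d → ℝ} (hz : z ∈ interior (hK P)) :
    -z ∈ interior (hK P) := by
  have h := (Homeomorph.neg (Fin d → ℝ)).preimage_interior (hK P)
  have h2 : (Homeomorph.neg (Fin d → ℝ)) ⁻¹' (hK P) = hK P := hK_negset P
  rw [h2] at h
  rw [← h]
  simpa using hz

/-- a difference in the interior of the difference body is a difference of interior points -/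
theorem int_diff {P : Set (Fin d → ℝ)} (hc : Convex ℝ P) (hi : (interior P).Nonempty)
    {w : Fin d → ℝ} (hw : w ∈ interior (P - P)) :
    ∃ a ∈ interior P, ∃ b ∈ interior P, w = a - b := by
  obtain ⟨c, hc0⟩ := hi
  have hcont : Continuous fun t : ℝ => (1 + t) • w := by fun_prop
  have hnhds : ∀ᶠ t in nhds (0 : ℝ), (1 + t) • w ∈ interior (P - P) := by
    have h0 : (1 + (0 : ℝ)) • w ∈ interior (P - P) := by simpa using hw
    exact hcont.continuousAt.eventually (isOpen_interior.mem_nhds h0)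
  obtain ⟨ε, hε, hball⟩ := Metric.eventually_nhds_iff.1 hnhds
  have h1 := interior_subset (hball (y := ε / 2) (by
    rw [Real.dist_eq, sub_zero, abs_of_pos (by linarith)]; linarith))
  obtain ⟨a, ha, b, hb, hab⟩ := h1
  have hpos : 0 < 1 + ε / 2 := by linarith
  have hs : (1 + ε / 2)⁻¹ + (ε / 2) * (1 + ε / 2)⁻¹ = 1 := by
    field_simp
  refine ⟨(1 + ε / 2)⁻¹ • a + ((ε / 2) * (1 + ε / 2)⁻¹) • c, ?_,
    (1 + ε / 2)⁻¹ • b + ((ε / 2) * (1 + ε / 2)⁻¹) • c, ?_, ?_⟩
  · exact hc.combo_self_interior_mem_interior ha hc0 (by positivity) (by positivity) hs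
  · exact hc.combo_self_interior_mem_interior hb hc0 (by positivity) (by positivity) hs
  · have : (1 + ε / 2)⁻¹ • a + ((ε / 2) * (1 + ε / 2)⁻¹) • c -
        ((1 + ε / 2)⁻¹ • b + ((ε / 2) * (1 + ε / 2)⁻¹) • c) = (1 + ε / 2)⁻¹ • (a - b) := by
      rw [smul_sub]; abel
    simp only at hab
    rw [this, hab, smul_smul, inv_mul_cancel₀ hpos.ne', one_smul]

theorem trans_disj {P : Set (Fin d → ℝ)} (hc : Convex ℝ P) {t t' : Fin d → ℝ}
    (h : t - t' ∉ interior (P - P)) :
    Disjoint ((fun k => k + t) '' interior (hK P)) ((fun k => k + t') '' interior (hK P)) := by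
  rw [Set.disjoint_left]
  rintro z ⟨k, hk, rfl⟩ ⟨k', hk', he⟩
  apply h
  have h1 : (1 / 2 : ℝ) • k' + (1 / 2 : ℝ) • (-k) ∈ interior (hK P) :=
    (hK_convex hc).interior hk' (hK_int_neg hk) (by norm_num) (by norm_num) (by norm_num)
  have h2 : interior (hK P) = (1 / 2 : ℝ) • interior (P - P) := interior_smul₀ (by norm_num) _
  rw [h2] at h1
  obtain ⟨w, hw, hwe⟩ := h1
  have h3 : t - t' = w := by
    simp only at he hwe
    have h4 : t - t' = k' - k := by
      have : k' + t' = k + t := he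
      linear_combination -this
    have h5 : (2 : ℝ) • ((1 / 2 : ℝ) • w) = (2 : ℝ) • ((1 / 2 : ℝ) • k' + (1 / 2 : ℝ) • (-k)) := by
      rw [hwe]
    rw [smul_smul, smul_add, smul_smul, smul_smul] at h5
    norm_num at h5
    rw [h4, h5]; abel
  rw [h3]
  exact hw

theorem vol_int {P : Set (Fin d → ℝ)} (hc : Convex ℝ P) : volume (interior P) = volume P := by
  refine le_antisymm (measure_mono interior_subset) ?_
  have h1 : P ⊆ interior P ∪ frontier P := by
    intro x hx
    by_cases h : x ∈ interior P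
    · exact Or.inl h
    · exact Or.inr ⟨subset_closure hx, h⟩
  calc volume P ≤ volume (interior P ∪ frontier P) := measure_mono h1
    _ ≤ volume (interior P) + volume (frontier P) := measure_union_le _ _
    _ = volume (interior P) := by rw [hc.addHaar_frontier volume, add_zero]

/-- packing -/
theorem packing {P : Set (Fin d → ℝ)} (hc : Convex ℝ P) {ι : Type*} (s : Finset ι)
    (t : ι → Fin d → ℝ) (hp : ∀ i ∈ s, ∀ j ∈ s, i ≠ j → t i - t j ∉ interior (P - P))
    {B : Set (Fin d → ℝ)} (hB : ∀ i ∈ s, ∀ k ∈ hK P, k + t i ∈ B) :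
    s.card * volume (hK P) ≤ volume B := by
  have hm : ∀ i ∈ s, MeasurableSet ((fun k => k + t i) '' interior (hK P)) := by
    intro i _
    exact ((Homeomorph.addRight (t i)).isOpenMap _ isOpen_interior).measurableSet
  have hv : ∀ i, volume ((fun k => k + t i) '' interior (hK P)) = volume (hK P) := by
    intro i
    rw [image_add_right, measure_preimage_add_right, vol_int (hK_convex hc)]
  have h1 := measure_biUnion_finset (μ := volume) (s := s)
    (f := fun i => (fun k => k + t i) '' interior (hK P)) (by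
      intro i hi j hj hij
      exact trans_disj hc (hp i hi j hj hij)) hm
  simp_rw [hv] at h1
  rw [Finset.sum_const, nsmul_eq_mul] at h1
  rw [← h1]
  refine measure_mono ?_
  intro z hz
  simp only [mem_iUnion] at hz
  obtain ⟨i, hi, k, hk, rfl⟩ := hz
  exact hB i hi k (interior_subset hk)

/-! ### Facets -/

/-- a facet of `P`: a nonempty exposed face of dimension `d - 1` -/
def IsFacet (P F : Set (Fin d → ℝ)) : Prop :=
  ∃ f : (Fin d → ℝ) →ₗ[ℝ] ℝ, F = {x | x ∈ P ∧ ∀ y ∈ P, f y ≤ f x} ∧ F.Nonempty ∧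
    Module.finrank ℝ (vectorSpan ℝ F) + 1 = d

theorem ker_finrank {f : (Fin d → ℝ) →ₗ[ℝ] ℝ} (hf : f ≠ 0) :
    Module.finrank ℝ (LinearMap.ker f) + 1 = d := by
  have h1 := LinearMap.finrank_range_add_finrank_ker f
  have h2 : LinearMap.range f = ⊤ := LinearMap.range_eq_top.2 (LinearMap.surjective hf)
  rw [h2, finrank_top, Module.finrank_self, Module.finrank_fin_fun] at h1
  omega

theorem facet_ne {P F : Set (Fin d → ℝ)} (hi : (interior P).Nonempty)
    {f : (Fin d → ℝ) →ₗ[ℝ] ℝ} (hF : F = {x | x ∈ P ∧ ∀ y ∈ P, f y ≤ f x})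
    (hd : Module.finrank ℝ (vectorSpan ℝ F) + 1 = d) : f ≠ 0 := by
  rintro rfl
  have h1 : F = P := by
    rw [hF]; ext x; simp
  have h2 : affineSpan ℝ P = ⊤ := by
    have := (isOpen_interior (s := P)).affineSpan_eq_top hi
    exact top_le_iff.1 (this ▸ affineSpan_mono ℝ interior_subset)
  rw [h1, ← direction_affineSpan, h2, AffineSubspace.direction_top, finrank_top,
    Module.finrank_fin_fun] at hd
  omega

theorem vspan_le {S : Set (Fin d → ℝ)} {g : (Fin d → ℝ) →ₗ[ℝ] ℝ} {u : ℝ}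
    (h : ∀ y ∈ S, g y = u) : vectorSpan ℝ S ≤ LinearMap.ker g := by
  rw [vectorSpan_def, Submodule.span_le]
  rintro _ ⟨a, ha, b, hb, rfl⟩
  simp [h a ha, h b hb]

theorem facet_eq {P F : Set (Fin d → ℝ)} {f : (Fin d → ℝ) →ₗ[ℝ] ℝ} (hf0 : f ≠ 0)
    (hF : F = {x | x ∈ P ∧ ∀ y ∈ P, f y ≤ f x})
    (hd : Module.finrank ℝ (vectorSpan ℝ F) + 1 = d) {s : Finset (Fin d → ℝ)} (hs : s.Nonempty)
    (hsF : (s : Set (Fin d → ℝ)) ⊆ F) (hsp : affineSpan ℝ (s : Set (Fin d → ℝ)) = affineSpan ℝ F)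
    {g : (Fin d → ℝ) →ₗ[ℝ] ℝ} (hg0 : g ≠ 0) {u : ℝ} (hgP : ∀ y ∈ P, g y ≤ u)
    (hx : g (∑ y ∈ s, (s.card : ℝ)⁻¹ • y) = u) : F = {x | x ∈ P ∧ g x = u} := by
  have hcard : (0 : ℝ) < s.card := by exact_mod_cast hs.card_pos
  have hFP : F ⊆ P := by rw [hF]; exact fun x hx => hx.1
  have hconst : ∀ y ∈ s, g y = u := by
    have h1 : ∑ y ∈ s, (s.card : ℝ)⁻¹ * (u - g y) = 0 := by
      rw [map_sum] at hx
      simp only [map_smul, smul_eq_mul] at hx
      have : ∑ y ∈ s, (s.card : ℝ)⁻¹ * u = u := by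
        rw [Finset.sum_const, nsmul_eq_mul, ← mul_assoc, mul_inv_cancel₀ hcard.ne', one_mul]
      calc ∑ y ∈ s, (s.card : ℝ)⁻¹ * (u - g y) =
          ∑ y ∈ s, (s.card : ℝ)⁻¹ * u - ∑ y ∈ s, (s.card : ℝ)⁻¹ * g y := by
            rw [← Finset.sum_sub_distrib]; exact Finset.sum_congr rfl fun y _ => by ring
        _ = 0 := by rw [this, hx]; ring
    have h2 := (Finset.sum_eq_zero_iff_of_nonneg (fun y hy =>
      mul_nonneg (inv_nonneg.2 hcard.le) (sub_nonneg.2 (hgP y (hFP (hsF hy)))))).1 h1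
    intro y hy
    have := h2 y hy
    rcases mul_eq_zero.1 this with h | h
    · exact absurd h (inv_ne_zero hcard.ne')
    · linarith
  obtain ⟨y0, hy0⟩ := hs
  have hy0F : y0 ∈ F := hsF hy0
  have hfc : ∀ y ∈ F, f y = f y0 := by
    intro y hy
    rw [hF] at hy hy0F
    exact le_antisymm (hy0F.2 y hy.1) (hy.2 y0 hy0F.1)
  have hvs : vectorSpan ℝ (s : Set (Fin d → ℝ)) = vectorSpan ℝ F := by
    rw [← direction_affineSpan, hsp, direction_affineSpan]
  have k1 : vectorSpan ℝ F = LinearMap.ker g := by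
    refine Submodule.eq_of_le_of_finrank_eq ?_ ?_
    · rw [← hvs]; exact vspan_le hconst
    · have := ker_finrank hg0
      omega
  have k2 : vectorSpan ℝ F = LinearMap.ker f := by
    refine Submodule.eq_of_le_of_finrank_eq (vspan_le hfc) ?_
    have := ker_finrank hf0
    omega
  have k3 : ∀ v, f v = 0 ↔ g v = 0 := by
    intro v
    rw [← LinearMap.mem_ker, ← LinearMap.mem_ker, ← k1, ← k2]
  have hgy0 : g y0 = u := hconst y0 hy0
  ext x
  constructor
  · intro hxF
    refine ⟨hFP hxF, ?_⟩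
    have := (k3 (x - y0)).1 (by rw [map_sub, hfc x hxF, sub_self])
    rw [map_sub, hgy0] at this
    linarith
  · rintro ⟨hxP, hxu⟩
    have := (k3 (x - y0)).2 (by rw [map_sub, hxu, hgy0, sub_self])
    rw [map_sub] at this
    have h4 : f x = f y0 := by linarith
    rw [hF] at hy0F ⊢
    exact ⟨hxP, fun y hy => h4 ▸ hy0F.2 y hy⟩

theorem separate {P T : Set (Fin d → ℝ)} (hc : Convex ℝ P) (hi : (interior P).Nonempty)
    (hTc : Convex ℝ T) (hTi : (interior T).Nonempty) (hdis : Disjoint (interior T) (interior P)) :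
    ∃ g : (Fin d → ℝ) →ₗ[ℝ] ℝ, g ≠ 0 ∧ ∃ u : ℝ, (∀ y ∈ P, g y ≤ u) ∧ ∀ y ∈ T, u ≤ g y := by
  have h1 : Disjoint (interior P) T := by
    rw [Set.disjoint_left]
    intro y hy hyT
    have h2 : y ∈ closure (interior T) := by
      rw [hTc.closure_interior_eq_closure_of_nonempty_interior hTi]
      exact subset_closure hyT
    obtain ⟨z, hz1, hz2⟩ := mem_closure_iff.1 h2 _ isOpen_interior hy
    exact Set.disjoint_left.1 hdis hz2 hz1
  obtain ⟨g, u, hg1, hg2⟩ := geometric_hahn_banach_open hc.interior isOpen_interior hTc h1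
  refine ⟨g.toLinearMap, ?_, u, ?_, fun y hy => hg2 y hy⟩
  · obtain ⟨a, ha⟩ := hi
    obtain ⟨b, hb⟩ := hTi
    intro h0
    have e1 : g a = 0 := by
      have := congrArg (fun l => l a) h0; simpa using this
    have e2 : g b = 0 := by
      have := congrArg (fun l => l b) h0; simpa using this
    have := hg1 a ha
    have := hg2 b (interior_subset hb)
    linarith
  · intro y hy
    have h2 : y ∈ closure (interior P) := by
      rw [hc.closure_interior_eq_closure_of_nonempty_interior hi]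
      exact subset_closure hy
    have h3 : closure (interior P) ⊆ {y | g y ≤ u} :=
      closure_minimal (fun z hz => (hg1 z hz).le) (isClosed_le g.continuous continuous_const)
    exact h3 h2

/-! ### Counting -/

theorem finite_of_mul {ι : Type*} {J : Set ι} {v B : ℝ≥0∞} (hv : v ≠ 0) (hB : B ≠ ∞)
    (h : ∀ s : Finset ι, (s : Set ι) ⊆ J → s.card * v ≤ B) : J.Finite := by
  by_contra hJ
  have hJ : J.Infinite := hJ
  obtain ⟨n, hn⟩ := ENNReal.exists_nat_mul_gt hv hB
  obtain ⟨s, hs, hc⟩ := hJ.exists_subset_card_eq n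
  have := h s hs
  rw [hc] at this
  exact absurd hn (not_lt.2 this)

theorem card_le {ι : Type*} {J : Set ι} {N : ℕ} (hN : ∀ s : Finset ι, (s : Set ι) ⊆ J → s.card ≤ N) :
    J.Finite ∧ J.ncard ≤ N := by
  have hf : J.Finite := by
    by_contra hJ
    have hJ : J.Infinite := hJ
    obtain ⟨s, hs, hc⟩ := hJ.exists_subset_card_eq (N + 1)
    have := hN s hs
    omega
  refine ⟨hf, ?_⟩
  rw [Set.ncard_eq_toFinset_card J hf]
  exact hN _ (by simp)

theorem three_K {P : Set (Fin d → ℝ)} (hc : Convex ℝ P) {x y z : Fin d → ℝ} (hx : x ∈ hK P)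
    (hy : y ∈ hK P) (hz : z ∈ hK P) : x + y + z ∈ (3 : ℝ) • hK P := by
  have h1 : (1 / 3 : ℝ) • x + (2 / 3 : ℝ) • ((1 / 2 : ℝ) • y + (1 / 2 : ℝ) • z) ∈ hK P :=
    hK_convex hc hx (hK_convex hc hy hz (by norm_num) (by norm_num) (by norm_num))
      (by norm_num) (by norm_num) (by norm_num)
  refine ⟨_, h1, ?_⟩
  ext i
  simp only [Pi.smul_apply, Pi.add_apply, smul_eq_mul]
  ring

theorem vol_three (P : Set (Fin d → ℝ)) : volume ((3 : ℝ) • hK P) = 3 ^ d * volume (hK P) := by
  rw [Measure.addHaar_smul, Module.finrank_fin_fun, abs_of_pos (by positivity),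
    ENNReal.ofReal_pow (by norm_num)]
  norm_num

theorem card_of_vol {n d : ℕ} {v : ℝ≥0∞} (hv : v ≠ 0) (hv' : v ≠ ∞)
    (h : (n : ℝ≥0∞) * v ≤ 3 ^ d * v) : n ≤ 3 ^ d := by
  have := (ENNReal.mul_le_mul_iff_left hv hv').1 h
  exact_mod_cast this

theorem hK_pos {P : Set (Fin d → ℝ)} (hk : IsCompact P) (hi : (interior P).Nonempty) :
    volume (hK P) ≠ 0 ∧ volume (hK P) ≠ ∞ := by
  refine ⟨?_, (hK_compact hk).measure_lt_top.ne⟩
  obtain ⟨c, hc⟩ := hi
  have h1 : volume P ≤ volume ((2 : ℝ) • hK P) := by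
    have : (fun x => x + -c) '' P ⊆ (2 : ℝ) • hK P := by
      rintro _ ⟨x, hx, rfl⟩
      refine ⟨_, mem_hK hx (interior_subset hc), ?_⟩
      simp only [smul_smul]
      norm_num
      rw [sub_eq_add_neg]
    calc volume P = volume ((fun x => x + -c) '' P) := by
          rw [image_add_right, measure_preimage_add_right]
      _ ≤ _ := measure_mono this
  have h2 : 0 < volume P :=
    lt_of_lt_of_le (isOpen_interior.measure_pos volume ⟨c, hc⟩) (measure_mono interior_subset)
  intro h0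
  rw [Measure.addHaar_smul, h0, mul_zero] at h1
  exact absurd h2 (not_lt.2 h1)

section tiling

variable {P : Set (Fin d → ℝ)} (hc : Convex ℝ P) (hk : IsCompact P) (hi : (interior P).Nonempty)
  {ι : Type*} {T : ι → Set (Fin d → ℝ)}
  (hd : ∀ i j, i ≠ j → Disjoint (interior (T i)) (interior (T j)))

theorem int_add (t : Fin d → ℝ) : interior ((fun x => x + t) '' P) = (fun x => x + t) '' interior P :=
  ((Homeomorph.addRight t).image_interior P).symm

theorem int_sub (t : Fin d → ℝ) : interior ((fun x => t - x) '' P) = (fun x => t - x) '' interior P :=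
  ((Homeomorph.subLeft t).image_interior P).symm

include hc hk hi hd

theorem plus_card (s : Finset ι) (hs : ∀ i ∈ s, ∃ t, T i = (fun x => x + t) '' P ∧ (T i ∩ P).Nonempty) :
    s.card ≤ 3 ^ d := by
  classical
  choose! t ht using hs
  have hv := hK_pos hk hi
  refine card_of_vol hv.1 hv.2 ?_
  rw [← vol_three]
  refine packing hc s t ?_ ?_
  · intro i his j hjs hij hmem
    obtain ⟨a, ha, b, hb, hab⟩ := int_diff hc hi hmem
    have h1 : b + t i ∈ interior (T i) := by
      rw [(ht i his).1, int_add]; exact ⟨b, hb, rfl⟩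
    have h2 : b + t i ∈ interior (T j) := by
      rw [(ht j hjs).1, int_add]
      exact ⟨a, ha, by simp only; linear_combination -hab⟩
    exact Set.disjoint_left.1 (hd i j hij) h1 h2
  · intro i his k hkk
    obtain ⟨hT, y, hy1, hy2⟩ := ht i his
    rw [hT] at hy1
    obtain ⟨p, hp, hpy⟩ := hy1
    have h1 : k + t i = k + (1 / 2 : ℝ) • (y - p) + (1 / 2 : ℝ) • (y - p) := by
      simp only at hpy
      rw [← hpy]
      ext m
      simp only [Pi.smul_apply, Pi.add_apply, Pi.sub_apply, smul_eq_mul]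
      ring
    rw [h1]
    exact three_K hc hkk (mem_hK hy2 hp) (mem_hK hy2 hp)

theorem minus_card (s : Finset ι) (hs : ∀ i ∈ s, ∃ t, T i = (fun x => t - x) '' P ∧ (T i ∩ P).Nonempty) :
    s.card ≤ 3 ^ d := by
  classical
  choose! t ht using hs
  have hv := hK_pos hk hi
  refine card_of_vol hv.1 hv.2 ?_
  rw [← vol_three]
  refine le_trans (packing hc s t (B := P + P + hK P) ?_ ?_) ?_
  · intro i his j hjs hij hmem
    obtain ⟨a, ha, b, hb, hab⟩ := int_diff hc hi hmem
    have h1 : t i - a ∈ interior (T i) := by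
      rw [(ht i his).1, int_sub]; exact ⟨a, ha, rfl⟩
    have h2 : t i - a ∈ interior (T j) := by
      rw [(ht j hjs).1, int_sub]
      exact ⟨b, hb, by simp only; linear_combination -hab⟩
    exact Set.disjoint_left.1 (hd i j hij) h1 h2
  · intro i his k hkk
    obtain ⟨hT, y, hy1, hy2⟩ := ht i his
    rw [hT] at hy1
    obtain ⟨p, hp, hpy⟩ := hy1
    have h1 : k + t i = y + p + k := by
      simp only at hpy
      rw [← hpy]; ring
    rw [h1]
    exact add_mem_add (add_mem_add hy2 hp) hkk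
  · refine bm_diff ((hk.add hk).add (hK_compact hk)).measurableSet
      ((hK_compact hk).smul (3 : ℝ)).measurableSet ?_
    rintro _ ⟨_, ⟨a, ha, b, hb, rfl⟩, k, hk1, rfl⟩ _ ⟨_, ⟨a', ha', b', hb', rfl⟩, k', hk1', rfl⟩
    have h1 : (1 / 2 : ℝ) • ((a + b + k) - (a' + b' + k')) =
        (1 / 2 : ℝ) • (a - a') + (1 / 2 : ℝ) • (b - b') + ((1 / 2 : ℝ) • k + (1 / 2 : ℝ) • (-k')) := by
      ext m
      simp only [Pi.smul_apply, Pi.add_apply, Pi.sub_apply, Pi.neg_apply, smul_eq_mul]
      ring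
    simp only at h1 ⊢
    rw [h1]
    exact three_K hc (mem_hK ha ha') (mem_hK hb hb')
      (hK_convex hc hk1 (hK_neg hk1') (by norm_num) (by norm_num) (by norm_num))

omit hi hd in
theorem tile_props {S : Set (Fin d → ℝ)}
    (h : ∃ t, S = (fun x => x + t) '' P ∨ S = (fun x => t - x) '' P) :
    Convex ℝ S ∧ IsCompact S ∧ volume S = volume P ∧ (∀ y ∈ S, ∀ z ∈ S, ∃ a ∈ P, ∃ b ∈ P, y - z = a - b) := by
  obtain ⟨t, rfl | rfl⟩ := h
  · refine ⟨?_, hk.image (by fun_prop), ?_, ?_⟩
    · rintro _ ⟨a, ha, rfl⟩ _ ⟨b, hb, rfl⟩ α β hα hβ hαβ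
      refine ⟨α • a + β • b, hc ha hb hα hβ hαβ, ?_⟩
      obtain rfl : β = 1 - α := by linarith
      ext m
      simp only [Pi.smul_apply, Pi.add_apply, smul_eq_mul]
      ring
    · rw [image_add_right, measure_preimage_add_right]
    · rintro _ ⟨a, ha, rfl⟩ _ ⟨b, hb, rfl⟩
      exact ⟨a, ha, b, hb, by simp⟩
  · refine ⟨?_, hk.image (by fun_prop), ?_, ?_⟩
    · rintro _ ⟨a, ha, rfl⟩ _ ⟨b, hb, rfl⟩ α β hα hβ hαβ
      refine ⟨α • a + β • b, hc ha hb hα hβ hαβ, ?_⟩
      obtain rfl : β = 1 - α := by linarith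
      ext m
      simp only [Pi.smul_apply, Pi.add_apply, Pi.sub_apply, smul_eq_mul]
      ring
    · have : (fun x => t - x) '' P = (fun x => x + t) '' (-P) := by
        rw [← Set.image_neg_eq_neg, image_image]
        congr 1; funext x; ring
      rw [this, image_add_right, measure_preimage_add_right, Measure.measure_neg]
    · rintro _ ⟨a, ha, rfl⟩ _ ⟨b, hb, rfl⟩
      exact ⟨b, hb, a, ha, by ring⟩

theorem local_fin (hT : ∀ i, ∃ t, T i = (fun x => x + t) '' P ∨ T i = (fun x => t - x) '' P)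
    (x : Fin d → ℝ) : {i | (T i ∩ Metric.closedBall x 1).Nonempty}.Finite := by
  obtain ⟨R, hR⟩ := Metric.isBounded_iff.1 hk.isBounded
  have hv : volume P ≠ 0 := by
    refine (lt_of_lt_of_le (isOpen_interior.measure_pos volume hi) (measure_mono interior_subset)).ne'
  refine finite_of_mul (v := volume P) (B := volume (Metric.closedBall x (1 + R))) hv
    (isCompact_closedBall x _).measure_lt_top.ne ?_
  intro s hs
  have hm : ∀ i ∈ s, MeasurableSet (interior (T i)) := fun i _ => isOpen_interior.measurableSet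
  have h1 := measure_biUnion_finset (μ := volume) (s := s) (f := fun i => interior (T i)) (by
      intro i _ j _ hij
      exact hd i j hij) hm
  have h2 : ∀ i ∈ s, volume (interior (T i)) = volume P := by
    intro i _
    obtain ⟨h3, _, h4, _⟩ := tile_props hc hk (hT i)
    rw [vol_int h3, h4]
  rw [Finset.sum_congr rfl h2, Finset.sum_const, nsmul_eq_mul] at h1
  rw [← h1]
  refine measure_mono ?_
  intro z hz
  simp only [mem_iUnion] at hz
  obtain ⟨i, his, hzi⟩ := hz
  obtain ⟨y, hy1, hy2⟩ := hs his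
  obtain ⟨_, _, _, h5⟩ := tile_props hc hk (hT i)
  obtain ⟨a, ha, b, hb, hab⟩ := h5 z (interior_subset hzi) y hy1
  have h6 : dist z y ≤ R := by
    rw [dist_eq_norm, hab, ← dist_eq_norm]
    exact hR ha hb
  rw [Metric.mem_closedBall] at hy2 ⊢
  linarith [dist_triangle z y x]

omit hi in
theorem touch_vol (hT : ∀ i, ∃ t, T i = (fun x => x + t) '' P ∨ T i = (fun x => t - x) '' P)
    (s : Finset ι) (hs : ∀ i ∈ s, (T i ∩ P).Nonempty) :
    s.card * volume P ≤ 3 ^ d * volume (hK P) := by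
  have hm : ∀ i ∈ s, MeasurableSet (interior (T i)) := fun i _ => isOpen_interior.measurableSet
  have h1 := measure_biUnion_finset (μ := volume) (s := s) (f := fun i => interior (T i)) (by
      intro i _ j _ hij
      exact hd i j hij) hm
  have h2 : ∀ i ∈ s, volume (interior (T i)) = volume P := by
    intro i _
    obtain ⟨h3, _, h4, _⟩ := tile_props hc hk (hT i)
    rw [vol_int h3, h4]
  rw [Finset.sum_congr rfl h2, Finset.sum_const, nsmul_eq_mul] at h1
  rw [← h1, ← vol_three]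
  have hkk : IsCompact (P - P) := by
    rw [sub_eq_add_neg]; exact hk.add hk.neg
  refine le_trans (measure_mono (t := P + (P - P)) ?_) ?_
  · intro z hz
    simp only [mem_iUnion] at hz
    obtain ⟨i, his, hzi⟩ := hz
    obtain ⟨y, hy1, hy2⟩ := hs i his
    obtain ⟨_, _, _, h5⟩ := tile_props hc hk (hT i)
    obtain ⟨a, ha, b, hb, hab⟩ := h5 z (interior_subset hzi) y hy1
    exact ⟨y, hy2, z - y, ⟨a, ha, b, hb, hab.symm⟩, by simp⟩
  · refine bm_diff (hk.add hkk).measurableSet ((hK_compact hk).smul (3 : ℝ)).measurableSet ?_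
    rintro _ ⟨p, hp, _, ⟨a, ha, b, hb, rfl⟩, rfl⟩ _ ⟨p', hp', _, ⟨a', ha', b', hb', rfl⟩, rfl⟩
    have h1 : (1 / 2 : ℝ) • ((p + (a - b)) - (p' + (a' - b'))) =
        (1 / 2 : ℝ) • (p - p') + (1 / 2 : ℝ) • (a - a') + (1 / 2 : ℝ) • (b' - b) := by
      ext m
      simp only [Pi.smul_apply, Pi.add_apply, Pi.sub_apply, smul_eq_mul]
      ring
    simp only at h1 ⊢
    rw [h1]
    exact three_K hc (mem_hK hp hp') (mem_hK ha ha') (mem_hK hb' hb)

theorem exists_tile (hT : ∀ i, ∃ t, T i = (fun x => x + t) '' P ∨ T i = (fun x => t - x) '' P)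
    (hu : ∀ x, ∃ i, x ∈ T i) {i0 : ι} (h0 : T i0 = P) {f : (Fin d → ℝ) →ₗ[ℝ] ℝ} (hf : f ≠ 0)
    {x : Fin d → ℝ} (hx : ∀ y ∈ P, f y ≤ f x) : ∃ i, i ≠ i0 ∧ x ∈ T i := by
  by_contra hcon
  push Not at hcon
  have hfin := local_fin hc hk hi hd hT x
  set J := {i | (T i ∩ Metric.closedBall x 1).Nonempty} with hJ
  set U := ⋃ i ∈ J \ {i0}, T i with hU
  have hUc : IsClosed U := by
    refine (hfin.subset sdiff_subset).isClosed_biUnion fun i _ => ?_
    exact (tile_props hc hk (hT i)).2.1.isClosed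
  have hxU : x ∉ U := by
    intro h
    simp only [hU, mem_iUnion] at h
    obtain ⟨i, hi1, hi2⟩ := h
    exact hcon i hi1.2 hi2
  obtain ⟨w, hw⟩ : ∃ w, f w ≠ 0 := by
    by_contra h
    push Not at h
    exact hf (LinearMap.ext h)
  -- a vector with positive value
  obtain ⟨v, hv⟩ : ∃ v, 0 < f v := by
    rcases lt_or_gt_of_ne hw with h | h
    · exact ⟨-w, by rw [map_neg]; linarith⟩
    · exact ⟨w, h⟩
  have hcont : Continuous fun t : ℝ => x + t • v := by fun_prop
  have e1 : ∀ᶠ t in nhds (0 : ℝ), x + t • v ∈ Uᶜ := by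
    have : x + (0 : ℝ) • v ∈ Uᶜ := by simpa using hxU
    exact hcont.continuousAt.eventually (hUc.isOpen_compl.mem_nhds this)
  have e2 : ∀ᶠ t in nhds (0 : ℝ), x + t • v ∈ Metric.ball x 1 := by
    have : x + (0 : ℝ) • v ∈ Metric.ball x 1 := by simp
    exact hcont.continuousAt.eventually (Metric.isOpen_ball.mem_nhds this)
  obtain ⟨ε, hε, hb⟩ := Metric.eventually_nhds_iff.1 (e1.and e2)
  obtain ⟨h1, h2⟩ := hb (y := ε / 2) (by
    rw [Real.dist_eq, sub_zero, abs_of_pos (by linarith)]; linarith)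
  obtain ⟨i, hi'⟩ := hu (x + (ε / 2) • v)
  have hne : i ≠ i0 := by
    rintro rfl
    rw [h0] at hi'
    have := hx _ hi'
    rw [map_add, map_smul, smul_eq_mul] at this
    nlinarith
  apply h1
  simp only [hU, mem_iUnion]
  exact ⟨i, ⟨⟨_, hi', Metric.ball_subset_closedBall h2⟩, hne⟩, hi'⟩

theorem touching (hT : ∀ i, ∃ t, T i = (fun x => x + t) '' P ∨ T i = (fun x => t - x) '' P)
    {i0 : ι} (h0 : T i0 = P) :
    {j | j ≠ i0 ∧ (T j ∩ P).Nonempty}.Finite ∧
      {j | j ≠ i0 ∧ (T j ∩ P).Nonempty}.ncard ≤ 2 * 3 ^ d - 1 ∧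
      ({j | j ≠ i0 ∧ (T j ∩ P).Nonempty}.ncard + 1 : ℕ) * volume P ≤
        3 ^ d * volume ((1 / 2 : ℝ) • (P - P)) := by
  classical
  set Jp := {i | ∃ t, T i = (fun x => x + t) '' P ∧ (T i ∩ P).Nonempty} with hJp
  set Jm := {i | ∃ t, T i = (fun x => t - x) '' P ∧ (T i ∩ P).Nonempty} with hJm
  obtain ⟨fp, cp⟩ := card_le (J := Jp) (N := 3 ^ d) (fun s hs =>
    plus_card hc hk hi hd s (fun i his => hs his))
  obtain ⟨fm, cm⟩ := card_le (J := Jm) (N := 3 ^ d) (fun s hs =>
    minus_card hc hk hi hd s (fun i his => hs his))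
  have hPne : P.Nonempty := hi.mono interior_subset
  have h0p : i0 ∈ Jp := ⟨0, by rw [h0]; simp, by rw [h0, inter_self]; exact hPne⟩
  set J := (Jp \ {i0}) ∪ Jm with hJ
  have fJ : J.Finite := (fp.subset sdiff_subset).union fm
  have cJ : J.ncard ≤ 2 * 3 ^ d - 1 := by
    have h1 : (Jp \ {i0}).ncard = Jp.ncard - 1 := ncard_sdiff_singleton_of_mem h0p
    have h2 : 0 < Jp.ncard := (ncard_pos fp).2 ⟨_, h0p⟩
    have h3 := ncard_union_le (Jp \ {i0}) Jm
    have : J.ncard ≤ (Jp \ {i0}).ncard + Jm.ncard := h3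
    omega
  set N := {j | j ≠ i0 ∧ (T j ∩ P).Nonempty} with hN
  have hNJ : N ⊆ J := by
    rintro j ⟨hj1, hj2⟩
    obtain ⟨t, ht⟩ := hT j
    rcases ht with ht | ht
    · exact Or.inl ⟨⟨t, ht, hj2⟩, hj1⟩
    · exact Or.inr ⟨t, ht, hj2⟩
  have fN : N.Finite := fJ.subset hNJ
  refine ⟨fN, le_trans (ncard_le_ncard hNJ fJ) cJ, ?_⟩
  have hi0 : i0 ∉ N := fun h => h.1 rfl
  have hfin2 : (insert i0 N).Finite := fN.insert _
  have hcard : hfin2.toFinset.card = N.ncard + 1 := by
    rw [← Set.ncard_eq_toFinset_card _ hfin2, ncard_insert_of_notMem hi0 fN]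
  rw [← hcard]
  refine touch_vol hc hk hd hT hfin2.toFinset ?_
  intro i his
  rw [Set.Finite.mem_toFinset] at his
  rcases his with rfl | h
  · rw [h0, inter_self]; exact hPne
  · exact h.2

theorem facets (hT : ∀ i, ∃ t, T i = (fun x => x + t) '' P ∨ T i = (fun x => t - x) '' P)
    (hu : ∀ x, ∃ i, x ∈ T i) {i0 : ι} (h0 : T i0 = P) :
    {F | IsFacet P F}.Finite ∧
      {F | IsFacet P F}.ncard ≤ {j | j ≠ i0 ∧ (T j ∩ P).Nonempty}.ncard := by
  classical
  have fJ := (touching hc hk hi hd hT h0).1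
  -- the tile of a facet
  have hex : ∀ F, IsFacet P F → ∃ i, i ≠ i0 ∧ ∃ s : Finset (Fin d → ℝ), s.Nonempty ∧
      (s : Set (Fin d → ℝ)) ⊆ F ∧ affineSpan ℝ (s : Set (Fin d → ℝ)) = affineSpan ℝ F ∧
      (∑ y ∈ s, (s.card : ℝ)⁻¹ • y) ∈ T i ∧ (∑ y ∈ s, (s.card : ℝ)⁻¹ • y) ∈ P := by
    rintro F ⟨f, hF, hne, hdim⟩
    have hf := facet_ne hi hF hdim
    obtain ⟨S, hSF, hSs, hSi⟩ := exists_affineIndependent ℝ (Fin d → ℝ) F
    have hSfin : S.Finite := finite_set_of_fin_dim_affineIndependent ℝ hSi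
    have hSne : S.Nonempty := by
      by_contra h
      rw [not_nonempty_iff_eq_empty] at h
      rw [h, AffineSubspace.span_empty] at hSs
      have := (affineSpan_nonempty ℝ).2 hne
      rw [← hSs] at this
      simp at this
    have hscoe : ((hSfin.toFinset : Finset (Fin d → ℝ)) : Set (Fin d → ℝ)) = S := by simp
    have hsne : hSfin.toFinset.Nonempty := by simpa using hSne
    have hcard : (0 : ℝ) < hSfin.toFinset.card := by exact_mod_cast hsne.card_pos
    have hsum : ∑ _y ∈ hSfin.toFinset, (hSfin.toFinset.card : ℝ)⁻¹ = 1 := by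
      rw [Finset.sum_const, nsmul_eq_mul, mul_inv_cancel₀ hcard.ne']
    have hSP : ∀ y ∈ hSfin.toFinset, y ∈ P ∧ ∀ z ∈ P, f z ≤ f y := by
      intro y hy
      have : y ∈ F := hSF (by simpa using hy)
      rw [hF] at this
      exact this
    have hxP : (∑ y ∈ hSfin.toFinset, (hSfin.toFinset.card : ℝ)⁻¹ • y) ∈ P :=
      hc.sum_mem (fun _ _ => inv_nonneg.2 hcard.le) hsum (fun y hy => (hSP y hy).1)
    have hxM : ∀ z ∈ P, f z ≤ f (∑ y ∈ hSfin.toFinset, (hSfin.toFinset.card : ℝ)⁻¹ • y) := by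
      intro z hz
      rw [map_sum]
      simp only [map_smul, smul_eq_mul]
      calc f z = ∑ _y ∈ hSfin.toFinset, (hSfin.toFinset.card : ℝ)⁻¹ * f z := by
            rw [← Finset.sum_mul, hsum, one_mul]
        _ ≤ _ := Finset.sum_le_sum fun y hy =>
            mul_le_mul_of_nonneg_left ((hSP y hy).2 z hz) (inv_nonneg.2 hcard.le)
    obtain ⟨i, hii, hxi⟩ := exists_tile hc hk hi hd hT hu h0 hf hxM
    exact ⟨i, hii, hSfin.toFinset, hsne, by rw [hscoe]; exact hSF, by rw [hscoe]; exact hSs, hxi, hxP⟩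
  have : Nonempty ι := ⟨i0⟩
  choose! φ hφ s hs1 hs2 hs3 hs4 hs5 using hex
  have hmaps : ∀ F ∈ {F | IsFacet P F}, φ F ∈ {j | j ≠ i0 ∧ (T j ∩ P).Nonempty} := by
    intro F hF
    exact ⟨hφ F hF, _, hs4 F hF, hs5 F hF⟩
  have hinj : InjOn φ {F | IsFacet P F} := by
    intro F hF F' hF' he
    obtain ⟨h3, h4, h5, _⟩ := tile_props hc hk (hT (φ F))
    have hTi : (interior (T (φ F))).Nonempty := by
      by_contra hcon
      rw [not_nonempty_iff_eq_empty] at hcon
      have h6 := vol_int h3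
      rw [hcon, measure_empty, h5] at h6
      have : 0 < volume P :=
        lt_of_lt_of_le (isOpen_interior.measure_pos volume hi) (measure_mono interior_subset)
      exact this.ne h6
    have hdis : Disjoint (interior (T (φ F))) (interior P) := by
      have := hd (φ F) i0 (hφ F hF)
      rwa [h0] at this
    obtain ⟨g, hg0, u, hgP, hgT⟩ := separate hc hi h3 hTi hdis
    have key : ∀ F'', IsFacet P F'' → φ F'' = φ F → F'' = {x | x ∈ P ∧ g x = u} := by
      rintro F'' hF'' he'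
      have hx1 := hgP _ (hs5 F'' hF'')
      have hx2 := hgT _ (he' ▸ hs4 F'' hF'')
      have hFF := hF''
      obtain ⟨f, hf, _, hdim⟩ := hF''
      exact facet_eq (facet_ne hi hf hdim) hf hdim (hs1 F'' hFF) (hs2 F'' hFF) (hs3 F'' hFF) hg0 hgP
        (le_antisymm hx1 hx2)
    rw [key F hF rfl, key F' hF' he.symm]
  exact ⟨Set.Finite.of_injOn hmaps hinj fJ, ncard_le_ncard_of_injOn φ hmaps hinj fJ⟩

end tiling

end geom

section final

variable {d : ℕ} {P : Set (Fin d → ℝ)} {ι : Type*} {T : ι → Set (Fin d → ℝ)}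

/-- Every tile can be moved to `P` by a homeomorphism which preserves the kind of the tiling. -/
theorem move (hT : ∀ i, ∃ t, T i = (fun x => x + t) '' P ∨ T i = (fun x => t - x) '' P) (i0 : ι) :
    ∃ e : (Fin d → ℝ) ≃ₜ (Fin d → ℝ), e ⁻¹' (T i0) = P ∧
      ∀ i, ∃ t, e ⁻¹' (T i) = (fun x => x + t) '' P ∨ e ⁻¹' (T i) = (fun x => t - x) '' P := by
  obtain ⟨t0, h0 | h0⟩ := hT i0
  · refine ⟨Homeomorph.addRight t0, ?_, ?_⟩
    · rw [h0]
      exact preimage_image_eq _ (Homeomorph.addRight t0).injective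
    · intro i
      obtain ⟨t, h | h⟩ := hT i
      · refine ⟨t - t0, Or.inl ?_⟩
        rw [h]
        ext x
        simp only [mem_preimage, Homeomorph.coe_addRight, mem_image]
        constructor
        · rintro ⟨p, hp, hpx⟩
          exact ⟨p, hp, by linear_combination hpx⟩
        · rintro ⟨p, hp, hpx⟩
          exact ⟨p, hp, by linear_combination hpx⟩
      · refine ⟨t - t0, Or.inr ?_⟩
        rw [h]
        ext x
        simp only [mem_preimage, Homeomorph.coe_addRight, mem_image]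
        constructor
        · rintro ⟨p, hp, hpx⟩
          exact ⟨p, hp, by linear_combination hpx⟩
        · rintro ⟨p, hp, hpx⟩
          exact ⟨p, hp, by linear_combination hpx⟩
  · refine ⟨Homeomorph.subLeft t0, ?_, ?_⟩
    · rw [h0]
      exact preimage_image_eq _ (Homeomorph.subLeft t0).injective
    · intro i
      obtain ⟨t, h | h⟩ := hT i
      · refine ⟨t0 - t, Or.inr ?_⟩
        rw [h]
        ext x
        simp only [mem_preimage, Homeomorph.subLeft_apply, mem_image]
        constructor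
        · rintro ⟨p, hp, hpx⟩
          exact ⟨p, hp, by linear_combination -hpx⟩
        · rintro ⟨p, hp, hpx⟩
          exact ⟨p, hp, by linear_combination -hpx⟩
      · refine ⟨t0 - t, Or.inl ?_⟩
        rw [h]
        ext x
        simp only [mem_preimage, Homeomorph.subLeft_apply, mem_image]
        constructor
        · rintro ⟨p, hp, hpx⟩
          exact ⟨p, hp, by linear_combination -hpx⟩
        · rintro ⟨p, hp, hpx⟩
          exact ⟨p, hp, by linear_combination -hpx⟩

theorem all_touching (hc : Convex ℝ P) (hk : IsCompact P) (hi : (interior P).Nonempty)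
    (hT : ∀ i, ∃ t, T i = (fun x => x + t) '' P ∨ T i = (fun x => t - x) '' P)
    (hd : ∀ i j, i ≠ j → Disjoint (interior (T i)) (interior (T j))) (i : ι) :
    {j | j ≠ i ∧ (T j ∩ T i).Nonempty}.Finite ∧
      {j | j ≠ i ∧ (T j ∩ T i).Nonempty}.ncard ≤ 2 * 3 ^ d - 1 ∧
      ({j | j ≠ i ∧ (T j ∩ T i).Nonempty}.ncard + 1 : ℕ) * volume P ≤
        3 ^ d * volume ((1 / 2 : ℝ) • (P - P)) ∧
      ((∀ x, ∃ i, x ∈ T i) → {F | IsFacet P F}.Finite ∧
        {F | IsFacet P F}.ncard ≤ {j | j ≠ i ∧ (T j ∩ T i).Nonempty}.ncard) := by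
  obtain ⟨e, he0, he⟩ := move hT i
  have hset : {j | j ≠ i ∧ (T j ∩ T i).Nonempty} = {j | j ≠ i ∧ (e ⁻¹' (T j) ∩ P).Nonempty} := by
    ext j
    simp only [mem_ofPred_eq]
    rw [← he0, ← preimage_inter]
    refine and_congr_right fun _ => ⟨fun h => h.preimage e.surjective, fun ⟨x, hx⟩ => ⟨e x, hx⟩⟩
  have hd' : ∀ a b, a ≠ b → Disjoint (interior (e ⁻¹' (T a))) (interior (e ⁻¹' (T b))) := by
    intro a b hab
    rw [← e.preimage_interior, ← e.preimage_interior]
    exact (hd a b hab).preimage _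
  rw [hset]
  obtain ⟨h1, h2, h3⟩ := touching hc hk hi hd' he he0
  refine ⟨h1, h2, h3, fun hu => facets hc hk hi hd' he (fun x => ?_) he0⟩
  obtain ⟨j, hj⟩ := hu (e x)
  exact ⟨j, hj⟩

end final

/-- **Theorem.** Let `P` be a convex body in `R^d` and let the tiles `T i` be translates of `P` and
of `-P` with disjoint interiors.  Every tile meets at most `N` other tiles, where
`N ≤ 2 * 3 ^ d - 1` and `(N + 1) vol P ≤ 3 ^ d vol ((P - P) / 2)`; and if the tiles cover `R^d` then
the number `N` of the facets of `P` has the same two bounds. -/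
theorem result (d : ℕ) (P : Set (Fin d → ℝ)) (hc : Convex ℝ P) (hk : IsCompact P)
    (hi : (interior P).Nonempty) {ι : Type*} (T : ι → Set (Fin d → ℝ))
    (hT : ∀ i, ∃ t, T i = (fun x => x + t) '' P ∨ T i = (fun x => t - x) '' P)
    (hd : ∀ i j, i ≠ j → Disjoint (interior (T i)) (interior (T j))) :
    (∀ i, {j | j ≠ i ∧ (T j ∩ T i).Nonempty}.Finite ∧
      {j | j ≠ i ∧ (T j ∩ T i).Nonempty}.ncard ≤ 2 * 3 ^ d - 1 ∧
      ({j | j ≠ i ∧ (T j ∩ T i).Nonempty}.ncard + 1 : ℕ) * volume P ≤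
        3 ^ d * volume ((1 / 2 : ℝ) • (P - P))) ∧
    ((∀ x, ∃ i, x ∈ T i) →
      {F | IsFacet P F}.Finite ∧ {F | IsFacet P F}.ncard ≤ 2 * 3 ^ d - 1 ∧
      ({F | IsFacet P F}.ncard + 1 : ℕ) * volume P ≤ 3 ^ d * volume ((1 / 2 : ℝ) • (P - P))) := by
  refine ⟨fun i => ?_, fun hu => ?_⟩
  · obtain ⟨h1, h2, h3, _⟩ := all_touching hc hk hi hT hd i
    exact ⟨h1, h2, h3⟩
  · obtain ⟨i, _⟩ := hu 0
    obtain ⟨_, h2, h3, h4⟩ := all_touching hc hk hi hT hd i
    obtain ⟨h5, h6⟩ := h4 hu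
    refine ⟨h5, le_trans h6 h2, le_trans ?_ h3⟩
    gcongr

end Pool.Agent.Results.MP_b99fbe_co.PointReflections
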